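import Pool.Agent.Lib.NFV.TotalV

set_option autoImplicit false

open NumberField Module

namespace Pool.Agent.Results.MP_44a56e_nt.AllDegrees

/-- Bounds for the number of number fields with absolute discriminant at most `X`: in degree `n` at
most `X` to the power a constant times `log n` (for all `n`, with the same constant), and in all
degrees together at most `X` to the power a constant times `log log X`. -/
theorem result : ∃ C : ℝ, 0 < C ∧
    (∀ n : ℕ, 2 ≤ n → ∀ X : ℝ, 1 ≤ X →
      {K : IntermediateField ℚ ℂ | finrank ℚ K = n ∧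
        ∃ _ : NumberField K, |(discr K : ℝ)| ≤ X}.Finite ∧
      ({K : IntermediateField ℚ ℂ | finrank ℚ K = n ∧
        ∃ _ : NumberField K, |(discr K : ℝ)| ≤ X}.ncard : ℝ) ≤ X ^ (C * Real.log n)) ∧
    ∀ X : ℝ, 16 ≤ X →
      {K : IntermediateField ℚ ℂ | ∃ _ : NumberField K, |(discr K : ℝ)| ≤ X}.Finite ∧
      ({K : IntermediateField ℚ ℂ | ∃ _ : NumberField K, |(discr K : ℝ)| ≤ X}.ncard : ℝ) ≤
        X ^ (C * Real.log (Real.log X)) := by
  obtain ⟨C1, h1, hC1⟩ := NFV.mainV
  obtain ⟨C2, h2, hC2⟩ := NFV.totalV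
  refine ⟨max C1 C2, lt_max_of_lt_left h1, fun n hn X hX => ⟨(hC1 n hn X hX).1,
    (hC1 n hn X hX).2.trans ?_⟩, fun X hX => ⟨(hC2 X hX).1, (hC2 X hX).2.trans ?_⟩⟩
  · have hl : 0 ≤ Real.log n := Real.log_nonneg (by exact_mod_cast (by omega : 1 ≤ n))
    exact Real.rpow_le_rpow_of_exponent_le hX
      (mul_le_mul_of_nonneg_right (le_max_left _ _) hl)
  · have h3 : 1 ≤ Real.log X := by
      have h4 : Real.log 16 ≤ Real.log X := Real.log_le_log (by norm_num) hX
      have h5 : Real.log 16 = 4 * Real.log 2 := by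
        rw [show (16 : ℝ) = 2 ^ (4 : ℕ) by norm_num, Real.log_pow]; norm_num
      have h6 := Real.log_two_gt_d9
      linarith
    exact Real.rpow_le_rpow_of_exponent_le (by linarith)
      (mul_le_mul_of_nonneg_right (le_max_right _ _) (Real.log_nonneg h3))

end Pool.Agent.Results.MP_44a56e_nt.AllDegrees
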