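import Pool.Agent.Lib.MP_44a56e_nt.Final

set_option autoImplicit false

open NumberField Module Filter Topology QTow

namespace Pool.Agent.Results.MP_44a56e_nt.QuadraticTowers

/-- The number of number fields, of all degrees together, that are obtained from the members of an
isomorphism closed set `B` by one or more successive quadratic extensions is asymptotic to a
constant times `X`; in particular this holds for all number fields whose Galois closure has
2-power degree. -/
theorem result :
    ∃ c : SF → ℝ,
      (∀ F : SF, FiniteDimensional ℚ F →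
        0 < c F ∧ Tendsto (fun X : ℝ => (qcount F X : ℝ) / X) atTop (𝓝 (c F))) ∧
      (∀ B : Set SF, IsoClosed B → (∀ F ∈ B, FiniteDimensional ℚ F) →
        Summable (fun F : B => (12 / 5 : ℝ) ^ deg F.1 * dabs F.1 ^ (-(3 / 2) : ℝ)) →
          Summable (fun F : Clo B => c F.1 / deg F.1) ∧
          Tendsto (fun X : ℝ => (countIso {K | Tow B K} X : ℝ) / X) atTop
            (𝓝 (∑' F : Clo B, c F.1 / deg F.1))) ∧
      (Summable (fun F : {F : SF // FiniteDimensional ℚ F ∧ F ∈ TwoClosure} =>
          c F.1 / deg F.1) ∧
        0 < ∑' F : {F : SF // FiniteDimensional ℚ F ∧ F ∈ TwoClosure}, c F.1 / deg F.1 ∧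
        Tendsto (fun X : ℝ => (countIso TwoClosure X : ℝ) / X) atTop
          (𝓝 (∑' F : {F : SF // FiniteDimensional ℚ F ∧ F ∈ TwoClosure}, c F.1 / deg F.1))) ∧
      (Summable (fun F : Clo LeThree => c F.1 / deg F.1) ∧
        0 < ∑' F : Clo LeThree, c F.1 / deg F.1 ∧
        Tendsto (fun X : ℝ => (countIso {K | Tow LeThree K} X : ℝ) / X) atTop
          (𝓝 (∑' F : Clo LeThree, c F.1 / deg F.1))) :=
  final_asymp

end Pool.Agent.Results.MP_44a56e_nt.QuadraticTowers
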