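import Pool.Agent.Lib.NFW.MainW

set_option autoImplicit false

open NumberField Module

namespace Pool.Agent.Results.MP_44a56e_nt.UniformDegree

/-- A bound for the number of number fields of degree `n` with absolute discriminant at most `X`,
uniform in `n`, with an exponent of `X` of the size of the logarithm of `n`. -/
theorem result (m : ℕ) (hm : 2 ≤ m) (ε : ℝ) (hε : 0 < ε) : ∃ C : ℝ, 0 < C ∧
    ∀ n : ℕ, 2 ≤ n → ∀ X : ℝ, 1 ≤ X →
      {K : IntermediateField ℚ ℂ | finrank ℚ K = n ∧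
        ∃ _ : NumberField K, |(discr K : ℝ)| ≤ X}.Finite ∧
      ({K : IntermediateField ℚ ℂ | finrank ℚ K = n ∧
        ∃ _ : NumberField K, |(discr K : ℝ)| ≤ X}.ncard : ℝ) ≤
        (n : ℝ) ^ (C * n * Real.log n) * X ^ (((m : ℝ) - 1 / 2 + ε) * (Nat.clog m n : ℝ)) :=
  NFW.mainW m hm ε hε

end Pool.Agent.Results.MP_44a56e_nt.UniformDegree
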