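import Pool.Agent.Lib.MP_44a56e_nt.Final

set_option autoImplicit false

open NumberField Module Filter Topology QTow

namespace Pool.Agent.Results.MP_44a56e_nt.UniformQuadratic

/-- A bound for the number of quadratic extensions of a number field, uniform in the field. -/
theorem result :
    ∃ C : ℝ, 0 < C ∧ ∀ F : SF, FiniteDimensional ℚ F → ∀ X : ℝ, 0 < X →
      (qcount F X : ℝ) ≤ C * (12 / 5) ^ deg F * dabs F ^ (-(3 / 2) : ℝ) * X :=
  final_uniform

end Pool.Agent.Results.MP_44a56e_nt.UniformQuadratic
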